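import Mathlib

namespace Pool.Agent.H.MP_918b6a_al
set_option linter.unusedSectionVars false
set_option linter.unusedVariables false

variable {L : Type} [Group L] [LinearOrder L] [MulLeftMono L] [MulRightMono L]

/-- convex subgroup generated by `x` -/
def hull (x : L) (hx : 1 ≤ x) : Subgroup L where
  carrier := {u | ∃ k : ℕ, (x ^ k)⁻¹ ≤ u ∧ u ≤ x ^ k}
  one_mem' := ⟨0, by simp, by simp⟩
  mul_mem' := by
    rintro u v ⟨k, h1, h2⟩ ⟨l, h3, h4⟩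
    refine ⟨k + l, ?_, ?_⟩
    · rw [add_comm, pow_add, mul_inv_rev]; exact mul_le_mul' h1 h3
    · rw [pow_add]; exact mul_le_mul' h2 h4
  inv_mem' := by
    rintro u ⟨k, h1, h2⟩
    exact ⟨k, inv_le_inv_iff.2 h2, inv_le'.1 h1⟩

theorem hull_convex {x : L} (hx : 1 ≤ x) {u v t : L} (hu : u ∈ hull x hx) (hv : v ∈ hull x hx)
    (h1 : u ≤ t) (h2 : t ≤ v) : t ∈ hull x hx := by
  obtain ⟨k, a1, -⟩ := hu
  obtain ⟨l, -, a2⟩ := hv
  refine ⟨k + l, le_trans ?_ (a1.trans h1), h2.trans (a2.trans ?_)⟩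
  · exact inv_le_inv_iff.2 (pow_le_pow_right' hx (by omega))
  · exact pow_le_pow_right' hx (by omega)

theorem self_mem_hull {x : L} (hx : 1 ≤ x) : x ∈ hull x hx :=
  ⟨1, by simpa using (inv_le_one'.2 hx).trans hx, by simp⟩

/-- bounded order automorphisms commuting with right multiplication by `R` -/
def Gs (R : Subgroup L) : Subgroup (Equiv.Perm L) where
  carrier := {g | StrictMono g ∧ (∀ ω, ∀ r ∈ R, g (ω * r) = g ω * r) ∧
    ∃ l : L, ∀ ω, g ω ≠ ω → ∃ r ∈ R, l⁻¹ ≤ ω * r ∧ ω * r ≤ l}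
  one_mem' := ⟨strictMono_id, fun _ _ _ => rfl, 1, fun _ h => absurd rfl h⟩
  mul_mem' := by
    rintro g h ⟨a1, a2, l, a3⟩ ⟨b1, b2, m, b3⟩
    refine ⟨a1.comp b1, fun ω r hr => by simp [a2 _ r hr, b2 _ r hr], max l m, fun ω hω => ?_⟩
    by_cases h1 : h ω = ω
    · obtain ⟨r, hr, c1, c2⟩ := a3 ω (by simpa [h1] using hω)
      exact ⟨r, hr, (inv_le_inv_iff.2 (le_max_left _ _)).trans c1, c2.trans (le_max_left _ _)⟩
    · obtain ⟨r, hr, c1, c2⟩ := b3 ω h1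
      exact ⟨r, hr, (inv_le_inv_iff.2 (le_max_right _ _)).trans c1, c2.trans (le_max_right _ _)⟩
  inv_mem' := by
    rintro g ⟨a1, a2, l, a3⟩
    refine ⟨fun x y h => a1.lt_iff_lt.1 (by simpa using h), fun ω r hr => ?_, l, fun ω hω => ?_⟩
    · apply g.injective; simp [a2 _ r hr]
    · exact a3 ω fun h => hω (by rw [Equiv.Perm.inv_eq_iff_eq, h])

/-- the lattice-ordered group -/
def GG (R : Subgroup L) : Type := Gs R

namespace GG
variable {R : Subgroup L}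

instance : Group (GG R) := inferInstanceAs (Group (Gs R))

/-- the action -/
def ap (g : GG R) (ω : L) : L := g.1 ω

theorem mono (g : GG R) : StrictMono g.ap := g.2.1
theorem eqv (g : GG R) (ω : L) {r : L} (hr : r ∈ R) : g.ap (ω * r) = g.ap ω * r := g.2.2.1 ω r hr
theorem bdd (g : GG R) : ∃ l : L, ∀ ω, g.ap ω ≠ ω → ∃ r ∈ R, l⁻¹ ≤ ω * r ∧ ω * r ≤ l := g.2.2.2
@[simp] theorem ap_mul (g h : GG R) (ω : L) : (g * h).ap ω = g.ap (h.ap ω) := rfl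
@[simp] theorem ap_one (ω : L) : (1 : GG R).ap ω = ω := rfl
@[simp] theorem ap_inv (g : GG R) (ω : L) : g.ap (g⁻¹.ap ω) = ω := by
  rw [← ap_mul, mul_inv_cancel, ap_one]
@[simp] theorem inv_ap (g : GG R) (ω : L) : g⁻¹.ap (g.ap ω) = ω := by
  rw [← ap_mul, inv_mul_cancel, ap_one]
theorem ext' {g h : GG R} (e : ∀ ω, g.ap ω = h.ap ω) : g = h := Subtype.ext (Equiv.ext e)

theorem mm (g h : GG R) (ω : L) :
    min (g⁻¹.ap (max (g.ap ω) (h.ap ω))) (h⁻¹.ap (max (g.ap ω) (h.ap ω))) = ω := by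
  rcases le_total (g.ap ω) (h.ap ω) with e | e
  · rw [max_eq_right e, inv_ap]
    exact min_eq_right (by simpa using g⁻¹.mono.monotone e)
  · rw [max_eq_left e, inv_ap]
    exact min_eq_left (by simpa using h⁻¹.mono.monotone e)

theorem mm' (g h : GG R) (ω : L) :
    max (g.ap (min (g⁻¹.ap ω) (h⁻¹.ap ω))) (h.ap (min (g⁻¹.ap ω) (h⁻¹.ap ω))) = ω := by
  rcases le_total (g⁻¹.ap ω) (h⁻¹.ap ω) with e | e
  · rw [min_eq_left e, ap_inv]
    exact max_eq_left (by simpa using h.mono.monotone e)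
  · rw [min_eq_right e, ap_inv]
    exact max_eq_right (by simpa using g.mono.monotone e)

/-- pointwise maximum -/
def sup' (g h : GG R) : GG R :=
  ⟨⟨fun ω => max (g.ap ω) (h.ap ω), fun ω => min (g⁻¹.ap ω) (h⁻¹.ap ω), mm g h, mm' g h⟩,
    fun _ _ e => max_lt_max (g.mono e) (h.mono e),
    fun ω r hr => by
      show max _ _ = max _ _ * r
      rw [g.eqv ω hr, h.eqv ω hr, max_mul_mul_right],
    by
      obtain ⟨l, a3⟩ := g.bdd
      obtain ⟨m, b3⟩ := h.bdd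
      refine ⟨max l m, fun ω hω => ?_⟩
      by_cases h1 : h.ap ω = ω
      · obtain ⟨r, hr, c1, c2⟩ := a3 ω fun h2 => hω (by
          show max _ _ = _
          rw [h1, h2, max_self])
        exact ⟨r, hr, (inv_le_inv_iff.2 (le_max_left _ _)).trans c1, c2.trans (le_max_left _ _)⟩
      · obtain ⟨r, hr, c1, c2⟩ := b3 ω h1
        exact ⟨r, hr, (inv_le_inv_iff.2 (le_max_right _ _)).trans c1,
          c2.trans (le_max_right _ _)⟩⟩

theorem sup'_ap (g h : GG R) (ω : L) : (sup' g h).ap ω = max (g.ap ω) (h.ap ω) := rfl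

theorem inf'_ap (g h : GG R) (ω : L) :
    (sup' g⁻¹ h⁻¹)⁻¹.ap ω = min (g.ap ω) (h.ap ω) := by
  show min (g⁻¹⁻¹.ap ω) (h⁻¹⁻¹.ap ω) = _
  rw [inv_inv, inv_inv]

instance : Lattice (GG R) where
  le g h := ∀ ω, g.ap ω ≤ h.ap ω
  le_refl _ _ := le_rfl
  le_trans _ _ _ a b ω := (a ω).trans (b ω)
  le_antisymm _ _ a b := ext' fun ω => (a ω).antisymm (b ω)
  sup := sup'
  le_sup_left _ _ _ := le_max_left _ _
  le_sup_right _ _ _ := le_max_right _ _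
  sup_le _ _ _ a b ω := max_le (a ω) (b ω)
  inf g h := (sup' g⁻¹ h⁻¹)⁻¹
  inf_le_left g h ω := by rw [inf'_ap]; exact min_le_left _ _
  inf_le_right g h ω := by rw [inf'_ap]; exact min_le_right _ _
  le_inf _ _ _ a b ω := by rw [inf'_ap]; exact le_min (a ω) (b ω)

theorem le_def {g h : GG R} : g ≤ h ↔ ∀ ω, g.ap ω ≤ h.ap ω := Iff.rfl

instance : MulLeftMono (GG R) := ⟨fun g _ _ e ω => g.mono.monotone (e ω)⟩
instance : MulRightMono (GG R) := ⟨fun g _ _ e ω => e (g.ap ω)⟩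

theorem hull_pres (g : GG R) {x : L} (hx : 1 ≤ x) (hR : x ∈ R) (ω : L) {u : L}
    (hu : u ∈ hull x hx) : ∃ v ∈ hull x hx, g.ap (ω * u) = g.ap ω * v := by
  obtain ⟨k, h1, h2⟩ := hu
  refine ⟨(g.ap ω)⁻¹ * g.ap (ω * u), ⟨k, ?_, ?_⟩, by group⟩
  · rw [le_inv_mul_iff_mul_le, ← g.eqv ω (R.inv_mem (R.pow_mem hR k))]
    exact g.mono.monotone (mul_le_mul_right h1 _)
  · rw [inv_mul_le_iff_le_mul, ← g.eqv ω (R.pow_mem hR k)]
    exact g.mono.monotone (mul_le_mul_right h2 _)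

end GG

/-- membership in `C R` -/
def InCR (C R : Subgroup L) (ω : L) : Prop := ∃ u ∈ C, ∃ r ∈ R, ω = u * r

theorem InCR.left {C R : Subgroup L} {ω l : L} (hl : l ∈ C) : InCR C R (l * ω) ↔ InCR C R ω := by
  constructor
  · rintro ⟨u, hu, r, hr, e⟩
    exact ⟨l⁻¹ * u, C.mul_mem (C.inv_mem hl) hu, r, hr, by rw [mul_assoc, ← e]; group⟩
  · rintro ⟨u, hu, r, hr, rfl⟩
    exact ⟨l * u, C.mul_mem hl hu, r, hr, by group⟩

theorem InCR.right {C R : Subgroup L} {ω r : L} (hr : r ∈ R) : InCR C R (ω * r) ↔ InCR C R ω := by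
  constructor
  · rintro ⟨u, hu, s, hs, e⟩
    exact ⟨u, hu, s * r⁻¹, R.mul_mem hs (R.inv_mem hr), by rw [← mul_assoc, ← e]; group⟩
  · rintro ⟨u, hu, s, hs, rfl⟩
    exact ⟨u, hu, s * r, R.mul_mem hs hr, by group⟩

open Classical in
/-- left multiplication by `l` on `C R`, the identity elsewhere -/
noncomputable def trf (C R : Subgroup L) (l ω : L) : L := if InCR C R ω then l * ω else ω

theorem trf_trf {C R : Subgroup L} {l : L} (hl : l ∈ C) (ω : L) :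
    trf C R l⁻¹ (trf C R l ω) = ω := by
  unfold trf
  by_cases h : InCR C R ω
  · rw [if_pos h, if_pos ((InCR.left hl).2 h)]; group
  · rw [if_neg h, if_neg h]

theorem exists_trunc (R : Subgroup L) {x : L} (hx : 1 ≤ x) (hb : ∃ m : L, ∀ k : ℕ, x ^ k ≤ m)
    {l : L} (hl : l ∈ hull x hx) : ∃ g : GG R, ∀ ω, g.ap ω = trf (hull x hx) R l ω := by
  set C := hull x hx
  refine ⟨⟨⟨trf C R l, trf C R l⁻¹, trf_trf hl, fun ω => by
    simpa using trf_trf (R := R) (C.inv_mem hl) ω⟩, ?_, ?_, ?_⟩, fun _ => rfl⟩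
  · intro ω ω' h
    show trf C R l ω < trf C R l ω'
    unfold trf
    by_cases h1 : InCR C R ω <;> by_cases h2 : InCR C R ω'
    · rw [if_pos h1, if_pos h2]; exact mul_lt_mul_right h l
    · rw [if_pos h1, if_neg h2]
      by_contra h3
      obtain ⟨u, hu, r, hr, rfl⟩ := h1
      refine h2 ⟨ω' * r⁻¹, hull_convex hx hu (C.mul_mem hl hu) ?_ ?_, r, hr, by group⟩
      · rw [le_mul_inv_iff_mul_le]; exact h.le
      · rw [mul_inv_le_iff_le_mul, mul_assoc]; exact not_lt.1 h3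
    · rw [if_neg h1, if_pos h2]
      by_contra h3
      obtain ⟨u, hu, r, hr, rfl⟩ := h2
      refine h1 ⟨ω * r⁻¹, hull_convex hx (C.mul_mem hl hu) hu ?_ ?_, r, hr, by group⟩
      · rw [le_mul_inv_iff_mul_le, mul_assoc]; exact not_lt.1 h3
      · rw [mul_inv_le_iff_le_mul]; exact h.le
    · rw [if_neg h1, if_neg h2]; exact h
  · intro ω r hr
    show trf C R l (ω * r) = trf C R l ω * r
    unfold trf
    by_cases h : InCR C R ω
    · rw [if_pos h, if_pos ((InCR.right hr).2 h), mul_assoc]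
    · rw [if_neg h, if_neg fun h' => h ((InCR.right hr).1 h')]
  · obtain ⟨m, hm⟩ := hb
    refine ⟨m, fun ω hω => ?_⟩
    have h : InCR C R ω := by
      by_contra h
      exact hω (if_neg h)
    obtain ⟨u, ⟨k, h1, h2⟩, r, hr, rfl⟩ := h
    refine ⟨r⁻¹, R.inv_mem hr, ?_, ?_⟩ <;> rw [mul_inv_cancel_right]
    · exact (inv_le_inv_iff.2 (hm k)).trans h1
    · exact h2.trans (hm k)

theorem mem_hull_of_le {x u : L} (hx : 1 ≤ x) (h1 : u ≤ x) (h2 : u⁻¹ ≤ x) : u ∈ hull x hx :=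
  ⟨1, by simpa using inv_le'.1 h2, by simpa using h1⟩

theorem exists_hull (t u v : L) :
    ∃ x : L, ∃ hx : 1 ≤ x, t ∈ hull x hx ∧ u ∈ hull x hx ∧ v ∈ hull x hx := by
  obtain ⟨x, hx⟩ := Finset.exists_le ({1, t, t⁻¹, u, u⁻¹, v, v⁻¹} : Finset L)
  simp only [Finset.mem_insert, Finset.mem_singleton, forall_eq_or_imp, forall_eq] at hx
  obtain ⟨h0, h1, h2, h3, h4, h5, h6⟩ := hx
  exact ⟨x, h0, mem_hull_of_le h0 h1 h2, mem_hull_of_le h0 h3 h4, mem_hull_of_le h0 h5 h6⟩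

theorem lsimple (R : Subgroup L) (hP : ∀ γ ν : L, 1 < γ → ∃ r ∈ R, ν ≤ r⁻¹ * γ * r)
    (hb : ∀ x : L, ∃ m : L, ∀ k : ℕ, x ^ k ≤ m) (H : Subgroup (GG R)) (hn : H.Normal)
    (hc : ∀ a b g, a ∈ H → b ∈ H → a ≤ g → g ≤ b → g ∈ H)
    (hl : ∀ a b, a ∈ H → b ∈ H → a ⊔ b ∈ H ∧ a ⊓ b ∈ H) : H = ⊥ ∨ H = ⊤ := by
  rw [or_iff_not_imp_left]
  intro hH
  obtain ⟨a, ha, ω₀, h0, h1⟩ : ∃ a ∈ H, ∃ ω₀, ω₀ < a.ap ω₀ ∧ 1 ≤ a := by
    obtain ⟨⟨a, ha⟩, ha1⟩ := H.ne_bot_iff_exists_ne_one.1 hH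
    obtain ⟨ω, hω⟩ : ∃ ω, a.ap ω ≠ ω := by
      by_contra h
      push Not at h
      exact ha1 (Subtype.ext (GG.ext' h))
    rcases lt_or_gt_of_ne hω with h | h
    · refine ⟨a⁻¹ ⊔ 1, (hl _ _ (H.inv_mem ha) H.one_mem).1, ω, ?_, le_sup_right⟩
      exact lt_of_lt_of_le (by simpa using a⁻¹.mono h) (le_sup_left (a := a⁻¹) (b := 1) ω)
    · exact ⟨a ⊔ 1, (hl _ _ ha H.one_mem).1, ω,
        lt_of_lt_of_le h (le_sup_left (a := a) (b := 1) ω), le_sup_right⟩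
  rw [eq_top_iff]
  intro b _
  obtain ⟨l, hl'⟩ := b.bdd
  set μ := max (b.ap l) (b⁻¹.ap l)
  obtain ⟨r, hr, hr'⟩ := hP (ω₀⁻¹ * a.ap ω₀) (l * μ) (by rwa [lt_inv_mul_iff_mul_lt, mul_one])
  set t := l⁻¹ * r⁻¹ * ω₀⁻¹
  obtain ⟨x, hx, x1, x2, x3⟩ := exists_hull t ω₀ (a.ap ω₀)
  obtain ⟨g, hg⟩ := exists_trunc R hx (hb x) x1
  have e1 : g.ap (ω₀ * r) = l⁻¹ := by
    rw [hg, trf, if_pos ⟨ω₀, x2, r, hr, rfl⟩]
    simp only [t]; group
  have e2 : μ ≤ (g * a * g⁻¹).ap l⁻¹ := by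
    rw [← e1, GG.ap_mul, GG.ap_mul, GG.inv_ap, a.eqv _ hr, hg, trf,
      if_pos ⟨_, x3, r, hr, rfl⟩]
    have : t * (a.ap ω₀ * r) = l⁻¹ * (r⁻¹ * (ω₀⁻¹ * a.ap ω₀) * r) := by simp only [t]; group
    rw [this, le_inv_mul_iff_mul_le]; exact hr'
  have hh : g * a * g⁻¹ ∈ H := hn.conj_mem a ha g
  have h1' : 1 ≤ g * a * g⁻¹ := by
    rw [le_mul_inv_iff_mul_le, one_mul]; exact le_mul_of_one_le_right' h1
  have key : ∀ b' : GG R, (∀ ω, b'.ap ω ≠ ω → b.ap ω ≠ ω) → b'.ap l ≤ μ → b' ≤ g * a * g⁻¹ := by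
    intro b' hb1 hb2 ω
    by_cases h : b'.ap ω = ω
    · rw [h]; exact h1' ω
    · obtain ⟨s, hs, c1, c2⟩ := hl' ω (hb1 ω h)
      have := (b'.mono.monotone c2).trans (hb2.trans (e2.trans ((g * a * g⁻¹).mono.monotone c1)))
      rwa [b'.eqv _ hs, GG.eqv _ _ hs, mul_le_mul_iff_right] at this
  refine hc _ _ b (H.inv_mem hh) hh (inv_le'.1 (key b⁻¹ (fun ω h h' => h ?_) (le_max_right _ _)))
    (key b (fun _ h => h) (le_max_left _ _))
  nth_rewrite 1 [← h']; exact GG.inv_ap _ _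

end Pool.Agent.H.MP_918b6a_al
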