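import Pool.Agent.H.MP_918b6a_al.Abs

namespace Pool.Agent.H.MP_918b6a_al
set_option linter.unusedSectionVars false
set_option linter.unusedVariables false

variable {L : Type} [Group L] [LinearOrder L] [MulLeftMono L] [MulRightMono L]

open Classical in
structure Data (L : Type) [Group L] [LinearOrder L] [MulLeftMono L] [MulRightMono L] : Type where
  R : Subgroup L
  A : Subgroup L
  St : Subgroup L
  b : L
  c : L
  w : L
  φ : L → ℤ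
  ψ : L → ℤ
  normal : A.Normal
  AR : A ≤ R
  comm : ∀ α ∈ A, ∀ β ∈ A, α * β = β * α
  bR : b ∈ R
  b1 : 1 ≤ b
  cA : c ∈ A
  c1 : 1 < c
  w1 : 1 < w
  φ_mul : ∀ α ∈ A, ∀ β ∈ A, φ (α * β) = φ α + φ β
  φE : ∀ ε ∈ hull b b1, ∀ ε' ∈ hull b b1, ∀ α ∈ A, ∀ α' ∈ A, ε * α' = α * ε' → φ α = φ α'
  DE : ∀ δ ∈ hull c c1.le, ∃ j : ℤ, δ * c ^ (-j) ∈ hull b b1
  succ : ∀ u, 1 < u → u ∈ hull c c1.le ∨ ∃ δ ∈ hull c c1.le, w * δ ≤ u
  wD : ∀ δ ∈ hull c c1.le, w⁻¹ * δ * w ∈ hull c c1.le ∧ w * δ * w⁻¹ ∈ hull c c1.le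
  top : ∀ α ∈ A, 1 < α → ∃ r ∈ R, r⁻¹ * α * r ∈ hull c c1.le ∧ 0 < φ (r⁻¹ * α * r)
  pos : ∀ δ ∈ hull c c1.le, 1 ≤ δ → 0 ≤ φ δ
  DSt : hull c c1.le ≤ St
  wSt : w ∈ St
  φc : ∀ ω, φ (ω⁻¹ * c * ω) = if ω ∈ St then 1 else 0
  ψ_mul : ∀ x ∈ St, ∀ y ∈ St, ψ (x * y) = ψ x + ψ y
  ψD : ∀ δ ∈ hull c c1.le, ψ δ = 0
  ψR : ∀ r ∈ R, r ∈ St → ψ r = 0 ∧ r * w = w * r
  ψw : ψ w = 1
  hP : ∀ γ ν : L, 1 < γ → ∃ r ∈ R, ν ≤ r⁻¹ * γ * r
  hb : ∀ x : L, ∃ m : L, ∀ k : ℕ, x ^ k ≤ m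

namespace Data
variable (d : Data L)

abbrev D : Subgroup L := hull d.c d.c1.le

theorem w_not : d.w ∉ d.D := fun h => by
  have := d.ψD _ h
  rw [d.ψw] at this
  exact one_ne_zero this

theorem D_pres (g : GG d.R) (ω : L) {u : L} (hu : u ∈ d.D) :
    ∃ v ∈ d.D, g.ap (ω * u) = g.ap ω * v := g.hull_pres _ (d.AR d.cA) ω hu

theorem succ_le (g : GG d.R) (ω : L) : ∃ δ ∈ d.D, g.ap ω * d.w * δ ≤ g.ap (ω * d.w) := by
  have h1 : 1 < (g.ap ω)⁻¹ * g.ap (ω * d.w) := by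
    rw [lt_inv_mul_iff_mul_lt, mul_one]; exact g.mono (lt_mul_of_one_lt_right' _ d.w1)
  rcases d.succ _ h1 with h | ⟨δ, hδ, h⟩
  · obtain ⟨v, hv, e⟩ := d.D_pres g⁻¹ (g.ap ω) h
    rw [mul_inv_cancel_left, GG.inv_ap, GG.inv_ap, mul_right_inj] at e
    exact absurd (e ▸ hv) d.w_not
  · exact ⟨δ, hδ, by rwa [le_inv_mul_iff_mul_le, ← mul_assoc] at h⟩

theorem w_pres (g : GG d.R) (ω : L) : ∃ δ ∈ d.D, g.ap (ω * d.w) = g.ap ω * d.w * δ := by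
  obtain ⟨δ, hδ, h⟩ := d.succ_le g ω
  obtain ⟨δ', hδ', h'⟩ := d.succ_le g⁻¹ (g.ap ω)
  rw [GG.inv_ap] at h'
  have h2 := g.mono.monotone h'
  obtain ⟨v, hv, e⟩ := d.D_pres g (ω * d.w) hδ'
  rw [GG.ap_inv, e] at h2
  refine ⟨(g.ap ω * d.w)⁻¹ * g.ap (ω * d.w), hull_convex _ hδ (d.D.inv_mem hv) ?_ ?_, by group⟩
  · rwa [le_inv_mul_iff_mul_le]
  · rwa [inv_mul_le_iff_le_mul, le_mul_inv_iff_mul_le]

theorem wk_D (k : ℤ) {δ : L} (h : δ ∈ d.D) : (d.w ^ k)⁻¹ * δ * d.w ^ k ∈ d.D := by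
  induction k using Int.induction_on with
  | zero => simpa using h
  | succ k ih => convert (d.wD _ ih).1 using 1; group
  | pred k ih => convert (d.wD _ ih).2 using 1; group

theorem wk_pres (g : GG d.R) (ω : L) (k : ℤ) :
    ∃ δ ∈ d.D, g.ap (ω * d.w ^ k) = g.ap ω * d.w ^ k * δ := by
  induction k using Int.induction_on with
  | zero => exact ⟨1, d.D.one_mem, by simp⟩
  | succ k ih =>
    obtain ⟨δ, hδ, e⟩ := ih
    obtain ⟨δ', hδ', e'⟩ := d.w_pres g (ω * d.w ^ (k : ℤ))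
    refine ⟨d.w⁻¹ * δ * d.w * δ', d.D.mul_mem (d.wD _ hδ).1 hδ', ?_⟩
    rw [zpow_add_one, ← mul_assoc, e', e]; group
  | pred k ih =>
    obtain ⟨δ, hδ, e⟩ := ih
    obtain ⟨δ', hδ', e'⟩ := d.w_pres g (ω * d.w ^ (-(k : ℤ) - 1))
    refine ⟨d.w * (δ * δ'⁻¹) * d.w⁻¹, (d.wD _ (d.D.mul_mem hδ (d.D.inv_mem hδ'))).2, ?_⟩
    have e2 : ω * d.w ^ (-(k : ℤ) - 1) * d.w = ω * d.w ^ (-(k : ℤ)) := by group
    rw [e2, e] at e'
    have e3 : g.ap (ω * d.w ^ (-(k : ℤ) - 1)) =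
        g.ap ω * d.w ^ (-(k : ℤ)) * δ * δ'⁻¹ * d.w⁻¹ := by rw [e']; group
    rw [e3]; group

/-- the displacement -/
def al (n : GG d.R) (ω : L) : L := ω⁻¹ * n.ap ω

def InA (n : GG d.R) : Prop := ∀ ω, d.al n ω ∈ d.A

def F (n : GG d.R) (ω : L) : ℤ := d.φ (d.al n ω)

theorem ap_eq (n : GG d.R) (ω : L) : n.ap ω = ω * d.al n ω := by unfold al; group

theorem al_mul {n n' : GG d.R} (h' : d.InA n') (ω : L) :
    d.al (n * n') ω = d.al n ω * d.al n' ω := by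
  rw [al, GG.ap_mul, d.ap_eq n', n.eqv _ (d.AR (h' ω)), al, al]; group

theorem InA.mul {n n' : GG d.R} (h : d.InA n) (h' : d.InA n') : d.InA (n * n') := fun ω => by
  rw [d.al_mul h']; exact d.A.mul_mem (h ω) (h' ω)

theorem al_inv {n : GG d.R} (h : d.InA n) (ω : L) : d.al n⁻¹ ω = (d.al n ω)⁻¹ := by
  have := d.al_mul (n := n⁻¹) h ω
  rw [inv_mul_cancel, al, GG.ap_one, inv_mul_cancel] at this
  exact eq_inv_of_mul_eq_one_left this.symm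

theorem InA.inv {n : GG d.R} (h : d.InA n) : d.InA n⁻¹ := fun ω => by
  rw [d.al_inv h]; exact d.A.inv_mem (h ω)

theorem al_conj {n : GG d.R} (h : d.InA n) (g : GG d.R) (ω : L) :
    d.al (g * n * g⁻¹) (g.ap ω) = d.al n ω := by
  rw [al, GG.ap_mul, GG.ap_mul, GG.inv_ap, d.ap_eq n, g.eqv _ (d.AR (h ω))]; group

theorem InA.conj {n : GG d.R} (h : d.InA n) (g : GG d.R) : d.InA (g * n * g⁻¹) := fun ω => by
  rw [← g.ap_inv ω, d.al_conj h]; exact h _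

theorem φ_one : d.φ 1 = 0 := by simpa using d.φ_mul 1 d.A.one_mem 1 d.A.one_mem

theorem F_mul {n n' : GG d.R} (h : d.InA n) (h' : d.InA n') (ω : L) :
    d.F (n * n') ω = d.F n ω + d.F n' ω := by
  rw [F, d.al_mul h', d.φ_mul _ (h ω) _ (h' ω)]; rfl

theorem F_one (ω : L) : d.F 1 ω = 0 := by rw [F, al, GG.ap_one, inv_mul_cancel, φ_one]

theorem F_inv {n : GG d.R} (h : d.InA n) (ω : L) : d.F n⁻¹ ω = - d.F n ω := by
  have := d.F_mul h (InA.inv d h) ω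
  rw [mul_inv_cancel, F_one] at this
  linarith

theorem F_D {n : GG d.R} (h : d.InA n) (ω : L) {δ : L} (hδ : δ ∈ d.D) :
    d.F n (ω * δ) = d.F n ω := by
  obtain ⟨j, hj⟩ := d.DE δ hδ
  obtain ⟨ε', hε', e⟩ := n.hull_pres d.b1 d.bR ω hj
  have hc : d.c ^ j ∈ d.A := d.A.zpow_mem d.cA j
  have e1 : n.ap (ω * δ) = n.ap (ω * (δ * d.c ^ (-j))) * d.c ^ j := by
    rw [← n.eqv _ (d.AR hc)]; congr 1; group
  refine (d.φE _ hj _ hε' _ (h ω) _ (h (ω * δ)) ?_).symm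
  have e2 := d.comm _ hc _ (h (ω * δ))
  have e3 : d.al n (ω * δ) = δ⁻¹ * d.al n ω * ε' * d.c ^ j := by
    rw [al, e1, e, al]; group
  have e4 : d.c ^ (-j) * d.al n (ω * δ) = d.al n (ω * δ) * d.c ^ (-j) := by
    rw [zpow_neg, inv_mul_eq_iff_eq_mul, ← mul_assoc, e2]; group
  rw [mul_assoc, e4, e3]; group

theorem F_conj {n : GG d.R} (h : d.InA n) (g : GG d.R) (ω : L) (k : ℤ) :
    d.F (g * n * g⁻¹) (g.ap ω * d.w ^ k) = d.F n (ω * d.w ^ k) := by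
  obtain ⟨δ, hδ, e⟩ := d.wk_pres g ω k
  rw [← d.F_D (InA.conj d h g) _ hδ, ← e, F, d.al_conj h]; rfl

/-- the normal subgroup -/
def N : Subgroup (GG d.R) where
  carrier := {n | d.InA n ∧ ∀ ω, (Function.support fun k : ℤ => d.F n (ω * d.w ^ k)).Finite ∧
    ∑ᶠ k : ℤ, d.F n (ω * d.w ^ k) = 0}
  one_mem' := ⟨fun ω => by rw [al, GG.ap_one, inv_mul_cancel]; exact d.A.one_mem,
    fun ω => by simp [F_one]⟩
  mul_mem' := by
    rintro n n' ⟨h, a⟩ ⟨h', a'⟩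
    refine ⟨InA.mul d h h', fun ω => ?_⟩
    simp only [d.F_mul h h']
    refine ⟨((a ω).1.union (a' ω).1).subset (Function.support_add _ _), ?_⟩
    rw [finsum_add_distrib (a ω).1 (a' ω).1, (a ω).2, (a' ω).2, add_zero]
  inv_mem' := by
    rintro n ⟨h, a⟩
    refine ⟨InA.inv d h, fun ω => ?_⟩
    simp only [d.F_inv h]
    refine ⟨by simpa using (a ω).1, ?_⟩
    rw [finsum_neg_distrib, (a ω).2, neg_zero]

theorem N_normal : d.N.Normal := ⟨by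
  rintro n ⟨h, a⟩ g
  refine ⟨InA.conj d h g, fun ω => ?_⟩
  rw [← g.ap_inv ω]
  simp only [d.F_conj h]
  exact a _⟩

theorem N_pos {n : GG d.R} (hn : n ∈ d.N) (h1 : 1 ≤ n) : n = 1 := by
  obtain ⟨h, a⟩ := hn
  have hge : ∀ ω, 1 ≤ d.al n ω := fun ω => by
    rw [al, le_inv_mul_iff_mul_le, mul_one]; exact h1 ω
  refine GG.ext' fun ω₀ => ?_
  by_contra hne
  have hlt : 1 < d.al n ω₀ := lt_of_le_of_ne (hge _) fun e => hne (by
    rw [d.ap_eq, ← e]; simp)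
  obtain ⟨r, hr, h2, h3⟩ := d.top _ (h ω₀) hlt
  have e : d.al n (ω₀ * r) = r⁻¹ * d.al n ω₀ * r := by rw [al, n.eqv _ hr, al]; group
  rw [← e] at h2 h3
  set ω := ω₀ * r
  have h4 : ∀ k : ℤ, 0 ≤ d.F n (ω * d.w ^ k) := by
    intro k
    obtain ⟨δ, hδ, e'⟩ := d.wk_pres n ω k
    refine d.pos _ ?_ (hge _)
    have : d.al n (ω * d.w ^ k) = (d.w ^ k)⁻¹ * d.al n ω * d.w ^ k * δ := by
      rw [al, e', al]; group
    rw [this]; exact d.D.mul_mem (d.wk_D k h2) hδ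
  have h5 := finsum_pos (f := fun k : ℤ => d.F n (ω * d.w ^ k)) h4 ⟨0, by simpa [F] using h3⟩ (a ω).1
  rw [(a ω).2] at h5
  exact lt_irrefl _ h5

theorem ψ_one : d.ψ 1 = 0 := d.ψD 1 d.D.one_mem

theorem ψ_wk (k : ℤ) : d.ψ (d.w ^ k) = k := by
  induction k using Int.induction_on with
  | zero => simpa using d.ψ_one
  | succ k ih => rw [zpow_add_one, d.ψ_mul _ (d.St.zpow_mem d.wSt _) _ d.wSt, ih, d.ψw]
  | pred k ih =>
    have := d.ψ_mul _ (d.St.zpow_mem d.wSt (-(k : ℤ) - 1)) _ d.wSt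
    rw [← zpow_add_one, sub_add_cancel, ih, d.ψw] at this
    linarith

theorem ψ_DR {ω : L} (h : InCR d.D d.R ω) (hs : ω ∈ d.St) : d.ψ ω = 0 := by
  obtain ⟨u, hu, r, hr, rfl⟩ := h
  have hr' : r ∈ d.St := (d.St.mul_mem_cancel_left (d.DSt hu)).1 hs
  rw [d.ψ_mul _ (d.DSt hu) _ hr', d.ψD _ hu, (d.ψR r hr hr').1, add_zero]

theorem conj_DR {σ : L} (hs : σ ∈ d.St) : InCR d.D d.R (d.w⁻¹ * σ * d.w) ↔ InCR d.D d.R σ := by
  constructor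
  · rintro ⟨u, hu, r, hr, e⟩
    have hr' : r ∈ d.St := (d.St.mul_mem_cancel_left (d.DSt hu)).1
      (e ▸ d.St.mul_mem (d.St.mul_mem (d.St.inv_mem d.wSt) hs) d.wSt)
    refine ⟨_, (d.wD u hu).2, r, hr, ?_⟩
    have e1 : σ = d.w * (u * r) * d.w⁻¹ := by rw [← e]; group
    have e2 : r * d.w⁻¹ = d.w⁻¹ * r := by
      rw [mul_inv_eq_iff_eq_mul, mul_assoc, (d.ψR r hr hr').2]; group
    rw [e1, mul_assoc, mul_assoc, e2]; group
  · rintro ⟨u, hu, r, hr, rfl⟩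
    have hr' : r ∈ d.St := (d.St.mul_mem_cancel_left (d.DSt hu)).1 hs
    refine ⟨_, (d.wD u hu).1, r, hr, ?_⟩
    rw [mul_assoc, mul_assoc, (d.ψR r hr hr').2]; group

theorem main : ∃ p n : GG d.R, 1 ≤ p ∧ p ≠ 1 ∧ n ∈ d.N ∧ n ≠ 1 := by
  classical
  obtain ⟨p, hp⟩ := exists_trunc d.R d.c1.le (d.hb d.c) (self_mem_hull d.c1.le)
  obtain ⟨x, hx, x1, -, -⟩ := exists_hull d.w d.w d.w
  obtain ⟨g, hg⟩ := exists_trunc d.R hx (d.hb x) x1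
  have hp1 : p.ap 1 = d.c := by
    rw [hp, trf, if_pos ⟨1, d.D.one_mem, 1, d.R.one_mem, by simp⟩, mul_one]
  have hal : ∀ ω, d.al p ω = if InCR d.D d.R ω then ω⁻¹ * d.c * ω else 1 := by
    intro ω
    rw [al, hp, trf]
    split_ifs <;> group
  have hpA : d.InA p := by
    intro ω
    rw [hal]
    split_ifs
    · exact d.normal.conj_mem' _ d.cA _
    · exact d.A.one_mem
  have hF : ∀ ω, d.F p ω = if InCR d.D d.R ω ∧ ω ∈ d.St then 1 else 0 := by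
    intro ω
    rw [F, hal]
    by_cases h : InCR d.D d.R ω
    · rw [if_pos h, d.φc]; simp [h]
    · rw [if_neg h, d.φ_one]; simp [h]
  have hsup : ∀ ω (k : ℤ), k ≠ -d.ψ ω → d.F p (ω * d.w ^ k) = 0 := by
    intro ω k hk
    rw [hF, if_neg]
    rintro ⟨h1, h2⟩
    have h3 := d.ψ_DR h1 h2
    have hω : ω ∈ d.St := (d.St.mul_mem_cancel_right (d.St.zpow_mem d.wSt k)).1 h2
    rw [d.ψ_mul _ hω _ (d.St.zpow_mem d.wSt k), d.ψ_wk] at h3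
    exact hk (by linarith)
  have hfin : ∀ ω, (Function.support fun k : ℤ => d.F p (ω * d.w ^ k)).Finite := fun ω =>
    (Set.finite_singleton (-d.ψ ω)).subset fun k hk => by
      by_contra h; exact hk (hsup ω k h)
  have hsum : ∀ ω, ∑ᶠ k : ℤ, d.F p (ω * d.w ^ k) = d.F p (ω * d.w ^ (-d.ψ ω)) := fun ω =>
    finsum_eq_single _ _ (hsup ω)
  have hq : d.InA (g * p * g⁻¹) := InA.conj d hpA g
  refine ⟨p, p * (g * p * g⁻¹)⁻¹, fun ω => ?_, fun h => ?_,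
    ⟨InA.mul d hpA (InA.inv d hq), fun ω => ?_⟩, fun h => ?_⟩
  · rw [hp, trf]
    split_ifs
    · exact le_mul_of_one_le_left' d.c1.le
    · exact le_rfl
  · rw [h] at hp1; exact d.c1.ne hp1
  · have e : ∀ k : ℤ, d.F (p * (g * p * g⁻¹)⁻¹) (ω * d.w ^ k) =
        d.F p (ω * d.w ^ k) - d.F p (g⁻¹.ap ω * d.w ^ k) := by
      intro k
      rw [d.F_mul hpA (InA.inv d hq), d.F_inv hq, ← d.F_conj hpA g (g⁻¹.ap ω), GG.ap_inv,
        sub_eq_add_neg]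
    simp only [e]
    refine ⟨((hfin ω).union (hfin (g⁻¹.ap ω))).subset (Function.support_sub _ _), ?_⟩
    rw [finsum_sub_distrib (hfin _) (hfin _), hsum, hsum, sub_eq_zero]
    set σ := g⁻¹.ap ω with hσ
    have e1 : ω = g.ap σ := by rw [hσ, GG.ap_inv]
    rw [hg, trf] at e1
    split_ifs at e1
    · rw [hF, hF]
      by_cases hs : σ ∈ d.St
      · have e2 : d.ψ ω = 1 + d.ψ σ := by rw [e1, d.ψ_mul _ d.wSt _ hs, d.ψw]
        have hs' : ω * d.w ^ (-d.ψ ω) ∈ d.St :=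
          d.St.mul_mem (e1 ▸ d.St.mul_mem d.wSt hs) (d.St.zpow_mem d.wSt _)
        have e3 : σ * d.w ^ (-d.ψ σ) = d.w⁻¹ * (ω * d.w ^ (-d.ψ ω)) * d.w := by
          rw [e2, e1]; group
        have hs'' : σ * d.w ^ (-d.ψ σ) ∈ d.St := d.St.mul_mem hs (d.St.zpow_mem d.wSt _)
        simp only [hs', hs'', and_true]
        rw [e3, d.conj_DR hs']
      · rw [if_neg, if_neg]
        · exact fun h => hs ((d.St.mul_mem_cancel_right (d.St.zpow_mem d.wSt _)).1 h.2)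
        · refine fun h => hs ?_
          have := (d.St.mul_mem_cancel_right (d.St.zpow_mem d.wSt _)).1 h.2
          rwa [e1, d.St.mul_mem_cancel_left d.wSt] at this
    · rw [← e1]
  · have e : p = g * p * g⁻¹ := mul_inv_eq_one.1 h
    have e1 : g.ap d.w⁻¹ = 1 := by
      rw [hg, trf, if_pos ⟨_, Subgroup.inv_mem _ x1, 1, d.R.one_mem, by simp⟩, mul_inv_cancel]
    have e2 : p.ap d.w⁻¹ = d.w⁻¹ := by
      rw [hp, trf, if_neg]
      intro h'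
      have := d.ψ_DR h' (d.St.inv_mem d.wSt)
      rw [← zpow_neg_one, d.ψ_wk] at this
      exact absurd this (by norm_num)
    have e3 : (g * p * g⁻¹).ap 1 = 1 := by
      rw [GG.ap_mul, GG.ap_mul]
      nth_rewrite 1 [← e1]
      rw [GG.inv_ap, e2, e1]
    rw [← e, hp1] at e3
    exact d.c1.ne' e3

theorem final : (∀ H : Subgroup (GG d.R), H.Normal →
      (∀ a b g, a ∈ H → b ∈ H → a ≤ g → g ≤ b → g ∈ H) →
      (∀ a b, a ∈ H → b ∈ H → a ⊔ b ∈ H ∧ a ⊓ b ∈ H) → H = ⊥ ∨ H = ⊤) ∧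
    d.N.Normal ∧ (∀ a b g, a ∈ d.N → b ∈ d.N → a ≤ g → g ≤ b → g ∈ d.N) ∧
    ¬ (d.N = ⊥ ∨ d.N = ⊤) := by
  refine ⟨lsimple d.R d.hP d.hb, d.N_normal, fun a b g ha hb h1 h2 => ?_, ?_⟩
  · have h3 := d.N_pos (d.N.mul_mem (d.N.inv_mem ha) hb)
      (by rw [le_inv_mul_iff_mul_le, mul_one]; exact h1.trans h2)
    have h4 : a = b := inv_mul_eq_one.1 h3
    rwa [le_antisymm h2 (h4 ▸ h1)]
  · obtain ⟨p, n, h1, h2, h3, h4⟩ := d.main
    rintro (h | h)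
    · rw [h] at h3; exact h4 (Subgroup.mem_bot.1 h3)
    · exact h2 (d.N_pos (h ▸ Subgroup.mem_top p) h1)

end Data
end Pool.Agent.H.MP_918b6a_al
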