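import Mathlib

namespace Pool.Agent.H.MP_918b6a_al

/-- the chain -/
abbrev X : Type := Colex (ℕ →₀ ℤ)

def co (x : X) (i : ℕ) : ℤ := ofColex x i

noncomputable def sg (i : ℕ) (m : ℤ) : X := toColex (Finsupp.single i m)

theorem X.ext' {x y : X} (h : ∀ i, co x i = co y i) : x = y := Finsupp.ext h

@[simp] theorem co_add (x y : X) (i : ℕ) : co (x + y) i = co x i + co y i := rfl
@[simp] theorem co_zero (i : ℕ) : co 0 i = 0 := rfl
theorem co_sg (i j : ℕ) (m : ℤ) : co (sg i m) j = if i = j then m else 0 := by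
  simp [co, sg, Finsupp.single_apply]
@[simp] theorem co_sg_self (i : ℕ) (m : ℤ) : co (sg i m) i = m := by simp [co_sg]
theorem co_sg_ne {i j : ℕ} (h : i ≠ j) (m : ℤ) : co (sg i m) j = 0 := by simp [co_sg, h]

def Ag (i : ℕ) (x y : X) : Prop := ∀ j, i < j → co x j = co y j

theorem lt_iff {x y : X} : x < y ↔ ∃ i, Ag i x y ∧ co x i < co y i := Finsupp.Colex.lt_iff

theorem Ag.refl (i : ℕ) (x : X) : Ag i x x := fun _ _ => rfl
theorem Ag.symm {i : ℕ} {x y : X} (h : Ag i x y) : Ag i y x := fun j hj => (h j hj).symm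
theorem Ag.trans {i : ℕ} {x y z : X} (h : Ag i x y) (h' : Ag i y z) : Ag i x z :=
  fun j hj => (h j hj).trans (h' j hj)
theorem Ag.mono {i j : ℕ} {x y : X} (h : Ag i x y) (hij : i ≤ j) : Ag j x y :=
  fun k hk => h k (lt_of_le_of_lt hij hk)
theorem ag_add (i : ℕ) (x : X) (m : ℤ) : Ag i x (x + sg i m) := fun j hj => by
  simp [co_sg_ne hj.ne]

theorem up {j : ℕ} {x y z : X} (h : Ag j x y) (h1 : x < z) (h2 : ¬ Ag j x z) : y < z := by
  obtain ⟨i, a, b⟩ := lt_iff.1 h1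
  have : j < i := by
    by_contra h'
    exact h2 (a.mono (not_lt.1 h'))
  exact lt_iff.2 ⟨i, (h.symm.mono this.le).trans a, h i this ▸ b⟩

theorem cv {i : ℕ} {x y z : X} (h : Ag i x z) (h1 : x < y) (h2 : y < z) : Ag i x y := by
  by_contra h'
  exact lt_asymm h2 (up h h1 h')

theorem bound (x : X) : ∃ n, ∀ j, n ≤ j → co x j = 0 := by
  obtain ⟨n, hn⟩ := (ofColex x).support.bddAbove
  refine ⟨n + 1, fun j hj => ?_⟩
  by_contra h
  have := hn (Finset.mem_coe.2 (Finsupp.mem_support_iff.2 h))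
  omega

def Tri (g : Equiv.Perm X) : Prop :=
  ∀ i x y, Ag i x y → co (g x) i - co x i = co (g y) i - co y i

theorem Tri.ag {g : Equiv.Perm X} (hg : Tri g) {i : ℕ} {x y : X} (h : Ag i x y) :
    Ag i (g x) (g y) := fun j hj => by
  have := hg j x y (h.mono hj.le)
  have := h j hj
  linarith

theorem Tri.mul {g h : Equiv.Perm X} (hg : Tri g) (hh : Tri h) : Tri (g * h) := fun i x y e => by
  have := hg i _ _ (hh.ag e)
  have := hh i _ _ e
  simp only [Equiv.Perm.mul_apply]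
  linarith

/-- the finitary iterated wreath product, with no translation at level one -/
def Ls : Subgroup (Equiv.Perm X) where
  carrier := {g | Tri g ∧ Tri g⁻¹ ∧ (∀ x, co (g x) 1 = co x 1) ∧
    ∃ S : Finset (ℕ × X), ∀ i y, co (g y) i ≠ co y i → ∃ x, (i, x) ∈ S ∧ Ag i x y}
  one_mem' := ⟨fun _ _ _ _ => by simp, fun _ _ _ _ => by simp, fun _ => rfl, ∅,
    fun _ _ h => absurd rfl h⟩
  mul_mem' := by
    classical
    rintro g h ⟨a1, a2, a3, S, a4⟩ ⟨b1, b2, b3, T, b4⟩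
    refine ⟨a1.mul b1, by rw [mul_inv_rev]; exact b2.mul a2, fun x => by
      rw [Equiv.Perm.mul_apply, a3, b3], T ∪ S.image fun p => (p.1, h⁻¹ p.2), fun i y hy => ?_⟩
    by_cases e : co (h y) i = co y i
    · obtain ⟨x, c1, c2⟩ := a4 i (h y) (by rw [e]; exact hy)
      exact ⟨h⁻¹ x, Finset.mem_union_right _ (Finset.mem_image.2 ⟨_, c1, rfl⟩),
        by simpa using b2.ag c2⟩
    · obtain ⟨x, c1, c2⟩ := b4 i y e
      exact ⟨x, Finset.mem_union_left _ c1, c2⟩
  inv_mem' := by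
    classical
    rintro g ⟨a1, a2, a3, S, a4⟩
    refine ⟨a2, by rwa [inv_inv], fun x => by rw [← a3 (g⁻¹ x)]; simp,
      S.image fun p => (p.1, g p.2), fun i y hy => ?_⟩
    obtain ⟨x, c1, c2⟩ := a4 i (g⁻¹ y) (by simpa using hy.symm)
    exact ⟨g x, Finset.mem_image.2 ⟨_, c1, rfl⟩, by simpa using a1.ag c2⟩

def LL : Type := Ls

namespace LL
noncomputable instance : Group LL := inferInstanceAs (Group Ls)

def ap (g : LL) (x : X) : X := g.1 x

@[simp] theorem ap_mul (g h : LL) (x : X) : (g * h).ap x = g.ap (h.ap x) := rfl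
@[simp] theorem ap_one (x : X) : (1 : LL).ap x = x := rfl
@[simp] theorem ap_inv (g : LL) (x : X) : g.ap (g⁻¹.ap x) = x := by
  rw [← ap_mul, mul_inv_cancel, ap_one]
@[simp] theorem inv_ap (g : LL) (x : X) : g⁻¹.ap (g.ap x) = x := by
  rw [← ap_mul, inv_mul_cancel, ap_one]
theorem ext' {g h : LL} (e : ∀ x, g.ap x = h.ap x) : g = h := Subtype.ext (Equiv.ext e)
theorem tri (g : LL) {i : ℕ} {x y : X} (h : Ag i x y) :
    co (g.ap x) i - co x i = co (g.ap y) i - co y i := g.2.1 i x y h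
theorem ag (g : LL) {i : ℕ} {x y : X} (h : Ag i x y) : Ag i (g.ap x) (g.ap y) := g.2.1.ag h
theorem co1 (g : LL) (x : X) : co (g.ap x) 1 = co x 1 := g.2.2.2.1 x
theorem fin (g : LL) : ∃ S : Finset (ℕ × X), ∀ i y, co (g.ap y) i ≠ co y i →
    ∃ x, (i, x) ∈ S ∧ Ag i x y := g.2.2.2.2
theorem mono (g : LL) : StrictMono g.ap := fun x y h => by
  obtain ⟨i, a, b⟩ := lt_iff.1 h
  exact lt_iff.2 ⟨i, g.ag a, by have := g.tri a; linarith⟩
theorem inv_fix {g : LL} {x : X} (h : g.ap x = x) : g⁻¹.ap x = x := by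
  nth_rewrite 1 [← h]; exact inv_ap _ _

theorem topnode (g : LL) (hg : g ≠ 1) : ∃ i x, co (g.ap x) i ≠ co x i ∧
    (∀ y, Ag i x y → Ag i (g.ap y) y) ∧ ∀ y, x < y → ¬ Ag i x y → g.ap y = y := by
  classical
  obtain ⟨S, hS⟩ := g.fin
  set S' := S.filter fun p => co (g.ap p.2) p.1 ≠ co p.2 p.1
  have hS' : ∀ i y, co (g.ap y) i ≠ co y i → ∃ x, (i, x) ∈ S' ∧ Ag i x y := by
    intro i y h
    obtain ⟨x, a, b⟩ := hS i y h
    refine ⟨x, Finset.mem_filter.2 ⟨a, fun e => h ?_⟩, b⟩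
    have := g.tri b
    simp only at e
    linarith
  have hne : (S' : Set (ℕ × X)).Nonempty := by
    by_contra h
    refine hg (ext' fun y => X.ext' fun i => ?_)
    by_contra h'
    obtain ⟨x, a, -⟩ := hS' i y h'
    exact h ⟨_, a⟩
  obtain ⟨⟨i, x⟩, hv, hmin⟩ := S'.finite_toSet.exists_minimalFor
    (fun p : ℕ × X => {y | p.2 < y ∧ ¬ Ag p.1 p.2 y}) _ hne
  refine ⟨i, x, (Finset.mem_filter.1 hv).2, fun y hy j hj => ?_, fun y h1 h2 => ?_⟩
  · by_contra h
    obtain ⟨x', a, b⟩ := hS' j y h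
    have b' : Ag j x' x := b.trans (hy.symm.mono hj.le)
    have := hmin a (fun z hz => ⟨up b' hz.1 hz.2, fun e => hz.2 (b'.trans (e.mono hj.le))⟩)
      (show x + sg j 1 ∈ _ from ⟨lt_iff.2 ⟨j, ag_add _ _ _, by simp⟩, fun e => by
        simpa using e j hj⟩)
    exact this.2 (b'.trans (ag_add _ _ _))
  · refine X.ext' fun j => ?_
    by_contra h
    obtain ⟨x', a, b⟩ := hS' j y h
    have := hmin a (fun z hz => ⟨h1.trans (up b hz.1 hz.2),
      fun e => h2 (cv e h1 (up b hz.1 hz.2))⟩) (show y ∈ _ from ⟨h1, h2⟩)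
    exact this.2 b

def PosAt (x : X) (g : LL) : Prop := x < g.ap x ∧ ∀ y, x ≤ y → y ≤ g.ap y

def Pos (g : LL) : Prop := ∃ x, PosAt x g

theorem Pos.mul {g h : LL} (hg : Pos g) (hh : Pos h) : Pos (g * h) := by
  obtain ⟨x, a1, a2⟩ := hg
  obtain ⟨x', b1, b2⟩ := hh
  rcases le_total x x' with e | e
  · exact ⟨x', b1.trans_le (a2 _ (e.trans b1.le)), fun y hy =>
      (b2 y hy).trans (a2 _ (e.trans (hy.trans (b2 y hy))))⟩
  · exact ⟨x, a1.trans_le (g.mono.monotone (b2 _ e)), fun y hy =>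
      (a2 y hy).trans (g.mono.monotone (b2 _ (e.trans hy)))⟩

theorem PosAt.conj {x : X} {g : LL} (hg : PosAt x g) (r : LL) :
    PosAt (r⁻¹.ap x) (r⁻¹ * g * r) :=
  ⟨by simpa using r⁻¹.mono hg.1, fun y hy => by
    simpa using r⁻¹.mono.monotone (hg.2 (r.ap y) (by simpa using r.mono.monotone hy))⟩

theorem pos_or (g : LL) (hg : g ≠ 1) : Pos g ∨ Pos g⁻¹ := by
  obtain ⟨i, x, h1, h2, h3⟩ := topnode g hg
  rcases lt_or_gt_of_ne h1 with h | h
  · have key : ∀ y, Ag i x y → g.ap y < y := fun y hy =>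
      lt_iff.2 ⟨i, h2 y hy, by have := g.tri hy; linarith⟩
    refine Or.inr ⟨x, by simpa using g⁻¹.mono (key x (Ag.refl _ _)), fun y hy => ?_⟩
    by_cases e : Ag i x y
    · simpa using (g⁻¹.mono (key y e)).le
    · rw [inv_fix (h3 y (lt_of_le_of_ne hy fun e' => e (e' ▸ Ag.refl _ _)) e)]
  · have key : ∀ y, Ag i x y → y < g.ap y := fun y hy =>
      lt_iff.2 ⟨i, (h2 y hy).symm, by have := g.tri hy; linarith⟩
    refine Or.inl ⟨x, key x (Ag.refl _ _), fun y hy => ?_⟩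
    by_cases e : Ag i x y
    · exact (key y e).le
    · rw [h3 y (lt_of_le_of_ne hy fun e' => e (e' ▸ Ag.refl _ _)) e]

instance : IsStrictTotalOrder LL fun a b => Pos (a⁻¹ * b) where
  trichotomous a b h1 h2 := by
    by_contra h
    rcases pos_or (a⁻¹ * b) (fun e => h (inv_mul_eq_one.1 e)) with e | e
    · exact h1 e
    · exact h2 (by simpa using e)
  irrefl a := by
    rintro ⟨x, h, -⟩
    simp at h
  trans a b c h1 h2 := by simpa [mul_assoc] using h1.mul h2

open Classical in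
noncomputable instance : LinearOrder LL := linearOrderOfSTO fun a b => Pos (a⁻¹ * b)

theorem lt_def {a b : LL} : a < b ↔ Pos (a⁻¹ * b) := Iff.rfl

instance : MulLeftMono LL := ⟨fun c a b h => by
  rcases h.eq_or_lt with e | e
  · rw [e]
  · exact le_of_lt (lt_def.2 (by simpa [mul_assoc] using lt_def.1 e))⟩

instance : MulRightMono LL := ⟨fun c a b h => by
  rcases h.eq_or_lt with e | e
  · rw [e]
  · obtain ⟨x, hx⟩ := lt_def.1 e
    exact le_of_lt (lt_def.2 ⟨_, by simpa [mul_assoc] using hx.conj c⟩)⟩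

theorem one_lt {g : LL} : 1 < g ↔ Pos g := by simp [lt_def]

theorem lt_of_fix {x : X} {g h : LL} (hg : ∀ y, x ≤ y → g.ap y = y) (hh : PosAt x h) : g < h :=
  ⟨x, by rw [ap_mul, inv_fix (hg _ hh.1.le)]; exact hh.1, fun y hy => by
    rw [ap_mul, inv_fix (hg _ (hy.trans (hh.2 y hy)))]; exact hh.2 y hy⟩

theorem exists_fix (g : LL) : ∃ x, ∀ y, x ≤ y → g.ap y = y := by
  obtain ⟨S, hS⟩ := g.fin
  choose b hb using bound
  obtain ⟨n, hn⟩ := Finset.exists_le (S.image fun p => max (p.1 + 1) (b p.2))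
  refine ⟨sg n 1, fun y hy => X.ext' fun i => ?_⟩
  by_contra h
  obtain ⟨x, a, c⟩ := hS i y h
  have := hn _ (Finset.mem_image_of_mem _ a)
  simp only [max_le_iff] at this
  have e : ∀ j, n ≤ j → co y j = 0 := fun j hj => by
    rw [← c j (by omega), hb x j (by omega)]
  exact not_lt.2 hy (lt_iff.2 ⟨n, fun j hj => by rw [e j hj.le, co_sg_ne hj.ne], by
    simp [e n le_rfl]⟩)

end LL

open Classical in
noncomputable def trF (i : ℕ) (η : X) (m : ℤ) (x : X) : X := if Ag i η x then x + sg i m else x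

theorem trF_ag (i : ℕ) (η : X) (m : ℤ) (x : X) : Ag i x (trF i η m x) := by
  unfold trF; split_ifs
  · exact ag_add _ _ _
  · exact Ag.refl _ _

theorem trF_trF (i : ℕ) (η : X) (m m' : ℤ) (x : X) :
    trF i η m (trF i η m' x) = trF i η (m + m') x := by
  by_cases h : Ag i η x
  · rw [trF, if_pos (h.trans (trF_ag _ _ _ _)), trF, trF, if_pos h, if_pos h]
    refine X.ext' fun j => ?_
    simp only [co_add, co_sg]; split_ifs <;> ring
  · rw [trF, if_neg fun e => h (e.trans (trF_ag _ _ _ _).symm), trF, trF, if_neg h, if_neg h]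

theorem trF_zero (i : ℕ) (η x : X) : trF i η 0 x = x := by
  unfold trF; split_ifs
  · exact X.ext' fun j => by simp [co_sg]
  · rfl

theorem co_trF {i j : ℕ} (h : i ≠ j) (η : X) (m : ℤ) (x : X) : co (trF i η m x) j = co x j := by
  unfold trF; split_ifs
  · simp [co_sg_ne h]
  · rfl

noncomputable def trP (i : ℕ) (η : X) (m : ℤ) : Equiv.Perm X :=
  ⟨trF i η m, trF i η (-m), fun x => by rw [trF_trF, neg_add_cancel, trF_zero],
    fun x => by rw [trF_trF, add_neg_cancel, trF_zero]⟩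

theorem tri_trF (i : ℕ) (η : X) (m : ℤ) (j : ℕ) (x y : X) (h : Ag j x y) :
    co (trF i η m x) j - co x j = co (trF i η m y) j - co y j := by
  by_cases e : i = j
  · subst e
    by_cases h' : Ag i η x
    · rw [trF, trF, if_pos h', if_pos (h'.trans h)]; simp
    · rw [trF, trF, if_neg h', if_neg fun e => h' (e.trans h.symm)]; simp
  · simp [co_trF e]

/-- elementary translation -/
noncomputable def tr (i : ℕ) (hi : i ≠ 1) (η : X) (m : ℤ) : LL :=
  ⟨trP i η m, tri_trF i η m, tri_trF i η (-m), co_trF hi η m, {(i, η)}, fun j y h => by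
    have e : i = j := by
      by_contra e; exact h (co_trF e η m y)
    subst e
    refine ⟨η, Finset.mem_singleton_self _, ?_⟩
    by_contra h'
    exact h (by show co (trF i η m y) i = _; rw [trF, if_neg h'])⟩

theorem tr_ap (i : ℕ) (hi : i ≠ 1) (η : X) (m : ℤ) (x : X) : (tr i hi η m).ap x = trF i η m x := rfl

theorem tr_pos {i : ℕ} (hi : i ≠ 1) {η x : X} (h : Ag i η x) : LL.PosAt x (tr i hi η 1) := by
  refine ⟨by rw [tr_ap, trF, if_pos h]; exact lt_iff.2 ⟨i, ag_add _ _ _, by simp⟩, fun y _ => ?_⟩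
  rw [tr_ap, trF]
  split_ifs
  · exact (lt_iff.2 ⟨i, ag_add _ _ _, by simp⟩).le
  · exact le_rfl

end Pool.Agent.H.MP_918b6a_al
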