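import Pool.Agent.H.MP_918b6a_al.Model
import Pool.Agent.H.MP_918b6a_al.Abs2

namespace Pool.Agent.H.MP_918b6a_al
open LL

/-- fixes everything above the line through `η` -/
def FixU (η : X) (g : LL) : Prop := ∀ y, η < y → ¬ Ag 0 η y → g.ap y = y

def mv (η : X) (g : LL) : ℤ := co (g.ap η) 0 - co η 0

def Stab (η : X) : Subgroup LL where
  carrier := {g | Ag 0 η (g.ap η)}
  one_mem' := Ag.refl _ _
  mul_mem' := fun {g h} a b => Ag.trans a (g.ag b)
  inv_mem' := fun {g} a => by simpa using (g⁻¹.ag a).symm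

theorem FixU.inv {η : X} {g : LL} (h : FixU η g) : FixU η g⁻¹ := fun y a b => inv_fix (h y a b)

theorem FixU.mul {η : X} {g h : LL} (a : FixU η g) (b : FixU η h) : FixU η (g * h) :=
  fun y c d => by rw [ap_mul, b y c d, a y c d]

theorem FixU.zpow {η : X} {g : LL} (a : FixU η g) (k : ℤ) : FixU η (g ^ k) := by
  induction k using Int.induction_on with
  | zero => exact fun _ _ _ => by simp
  | succ k ih => rw [zpow_add_one]; exact ih.mul a
  | pred k ih => rw [zpow_sub_one]; exact ih.mul a.inv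

theorem FixU.stab {η : X} {g : LL} (h : FixU η g) : g ∈ Stab η := by
  have key : ∀ g : LL, FixU η g → η < g.ap η → g ∈ Stab η := by
    intro g h h1
    by_contra h2
    exact h1.ne' (g.mono.injective (h _ h1 h2))
  rcases lt_trichotomy η (g.ap η) with e | e | e
  · exact key g h e
  · show Ag 0 η (g.ap η)
    rw [← e]; exact Ag.refl _ _
  · exact (Stab η).inv_mem_iff.1 (key g⁻¹ h.inv (by simpa using g⁻¹.mono e))

theorem line {η y : X} {g : LL} (h : g ∈ Stab η) (hy : Ag 0 η y) :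
    g.ap y = y + sg 0 (mv η g) := by
  refine X.ext' fun j => ?_
  rcases Nat.eq_zero_or_pos j with rfl | hj
  · have := g.tri hy
    simp only [co_add, co_sg_self, mv]; linarith
  · rw [co_add, co_sg_ne hj.ne, add_zero, ← g.ag hy j hj, ← h j hj, hy j hj]

theorem mv_mul {η : X} {g h : LL} (a : g ∈ Stab η) (b : h ∈ Stab η) :
    mv η (g * h) = mv η g + mv η h := by
  rw [mv, ap_mul, line a b]
  simp only [co_add, co_sg_self, mv]; ring

theorem mv_one (η : X) : mv η 1 = 0 := by simp [mv]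

theorem mv_inv {η : X} {g : LL} (a : g ∈ Stab η) : mv η g⁻¹ = - mv η g := by
  have := mv_mul a ((Stab η).inv_mem a)
  rw [mul_inv_cancel, mv_one] at this
  linarith

theorem mv_zpow {η : X} {g : LL} (a : g ∈ Stab η) (k : ℤ) : mv η (g ^ k) = k * mv η g := by
  induction k using Int.induction_on with
  | zero => simp [mv]
  | succ k ih => rw [zpow_add_one, mv_mul ((Stab η).zpow_mem a _) a, ih]; ring
  | pred k ih =>
    rw [zpow_sub_one, mv_mul ((Stab η).zpow_mem a _) ((Stab η).inv_mem a), ih, mv_inv a]; ring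

theorem FixU.pos {η : X} {g : LL} (h : FixU η g) (hm : 0 < mv η g) : 1 < g := by
  have key : ∀ y, Ag 0 η y → y < g.ap y := fun y hy => by
    rw [line h.stab hy]; exact lt_iff.2 ⟨0, ag_add _ _ _, by simpa using hm⟩
  refine one_lt.2 ⟨η, key _ (Ag.refl _ _), fun y hy => ?_⟩
  by_cases e : Ag 0 η y
  · exact (key y e).le
  · rw [h y (lt_of_le_of_ne hy fun e' => e (e' ▸ Ag.refl _ _)) e]

theorem FixU.nonneg {η : X} {g : LL} (h : FixU η g) (h1 : 1 ≤ g) : 0 ≤ mv η g := by
  by_contra e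
  have := h.inv.pos (by rw [mv_inv h.stab]; linarith)
  exact not_lt.2 h1 (one_lt_inv'.1 this)

theorem lt_of_move {η y : X} {u g : LL} (h1 : η < y) (h2 : ¬ Ag 0 η y) (hu : u.ap y ≠ y)
    (hp : Pos u) (hg : FixU η g) : g < u := by
  obtain ⟨x, hx⟩ := hp
  have key : ∀ z, η < z → ¬ Ag 0 η z → ∀ z', z ≤ z' → g.ap z' = z' := by
    intro z a b z' c
    rcases c.eq_or_lt with rfl | c
    · exact hg _ a b
    · exact hg _ (a.trans c) fun e => b (cv e a c)
  rcases le_total x y with e | e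
  · exact lt_of_fix (key y h1 h2) ⟨lt_of_le_of_ne (hx.2 y e) hu.symm, fun z hz =>
      hx.2 z (e.trans hz)⟩
  · exact lt_of_fix (fun z hz => key y h1 h2 z (e.trans hz)) hx

theorem FixU.convex {η : X} {g h u : LL} (a : FixU η g) (b : FixU η h) (h1 : g ≤ u) (h2 : u ≤ h) :
    FixU η u := by
  intro y c d
  by_contra e
  rcases pos_or u (by rintro rfl; exact e rfl) with p | p
  · exact not_lt.2 h2 (lt_of_move c d e p b)
  · refine not_lt.2 h1 (inv_lt_inv_iff.1 (lt_of_move c d (fun e' => e ?_) p a.inv))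
    simpa using inv_fix e'

noncomputable def t0 (η : X) : LL := tr 0 zero_ne_one η 1

theorem t0_fix (η : X) : FixU η (t0 η) := fun y _ h => by rw [t0, tr_ap, trF, if_neg h]

theorem t0_mv (η : X) : mv η (t0 η) = 1 := by
  rw [mv, t0, tr_ap, trF, if_pos (Ag.refl _ _)]; simp

theorem t0_pos (η : X) : 1 < t0 η := (t0_fix η).pos (by rw [t0_mv]; exact one_pos)

theorem t0_ag (η x : X) : Ag 0 x ((t0 η).ap x) := trF_ag _ _ _ _

theorem t0_not {η x : X} (h : ¬ Ag 0 η x) : (t0 η).ap x = x := by rw [t0, tr_ap, trF, if_neg h]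

theorem mem_hull {η : X} {g : LL} : g ∈ hull (t0 η) (t0_pos η).le ↔ FixU η g := by
  constructor
  · rintro ⟨k, h1, h2⟩
    have := (t0_fix η).zpow k
    rw [zpow_natCast] at this
    exact this.inv.convex this h1 h2
  · intro h
    have key : ∀ g : LL, FixU η g → g ≤ t0 η ^ ((mv η g).natAbs + 1) := by
      intro g h
      have a := (t0_fix η).zpow (((mv η g).natAbs + 1 : ℕ) : ℤ)
      have := (h.inv.mul a).pos (by
        rw [mv_mul h.inv.stab a.stab, mv_inv h.stab, mv_zpow (t0_fix η).stab, t0_mv]; omega)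
      rw [zpow_natCast, lt_inv_mul_iff_mul_lt, mul_one] at this
      exact this.le
    refine ⟨(mv η g).natAbs + 1, inv_le'.1 ?_, key g h⟩
    have := key _ h.inv
    rwa [mv_inv h.stab, Int.natAbs_neg] at this

theorem FixU.down {η η' : X} {g : LL} (e : η' = η + sg 1 1) (h : FixU η' g) (hm : mv η' g = 0) :
    FixU η g := by
  intro y h1 h2
  by_cases h3 : Ag 0 η' y
  · rw [line h.stab h3, hm]; exact X.ext' fun j => by simp [co_sg]
  · refine h y ?_ h3
    obtain ⟨i, a, b⟩ := lt_iff.1 h1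
    have a' : Ag 1 η' η := e ▸ (ag_add 1 η 1).symm
    rcases lt_trichotomy i 1 with c | c | c
    · exact absurd (a.mono (by omega)) h2
    · subst c
      refine lt_iff.2 ⟨1, a'.trans a, lt_of_le_of_ne (by rw [e]; simpa using b) fun c => h3 ?_⟩
      intro j hj
      rcases (show j = 1 ∨ 1 < j by omega) with rfl | hj
      · exact c
      · exact (a'.trans a) j hj
    · exact lt_iff.2 ⟨i, (a'.mono c.le).trans a, by rw [a' i c]; exact b⟩

theorem FixU.conj {η : X} {g : LL} (r : LL) {x : X} (hx : Ag 0 (r.ap η) x) (h : FixU x g) :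
    FixU η (r⁻¹ * g * r) := by
  intro y h1 h2
  have h3 : ¬ Ag 0 (r.ap η) (r.ap y) := fun e => h2 (by simpa using r⁻¹.ag e)
  rw [ap_mul, ap_mul, h _ (up hx (r.mono h1) h3) fun e => h3 (hx.trans e), inv_ap]

theorem mv_conj {η x : X} {g : LL} (r : LL) (hx : Ag 0 (r.ap η) x) (h : g ∈ Stab x) :
    mv η (r⁻¹ * g * r) = mv x g := by
  rw [mv, ap_mul, ap_mul, line h hx.symm]
  have := r⁻¹.tri (ag_add 0 (r.ap η) (mv x g))
  simp only [inv_ap, co_add, co_sg_self] at this
  linarith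

def RR : Subgroup LL where
  carrier := {g | ∀ x, co x 1 = 1 → co (g.ap x) 0 = co x 0}
  one_mem' := fun _ _ => rfl
  mul_mem' := fun {g h} a b x hx => by rw [ap_mul, a _ (by rw [co1, hx]), b x hx]
  inv_mem' := fun {g} a x hx => by rw [← a (g⁻¹.ap x) (by rw [co1, hx]), ap_inv]

theorem fix_of {g : LL} {x : X} (h1 : Ag 0 x (g.ap x)) (h2 : co (g.ap x) 0 = co x 0) :
    g.ap x = x := X.ext' fun j => by
  rcases Nat.eq_zero_or_pos j with rfl | hj
  · exact h2
  · exact (h1 j hj).symm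

def AA : Subgroup LL where
  carrier := {g | (∀ x, g ∈ Stab x) ∧ ∀ x, co x 1 ≠ 0 → g.ap x = x}
  one_mem' := ⟨fun _ => Subgroup.one_mem _, fun _ _ => rfl⟩
  mul_mem' := fun {g h} a b => ⟨fun x => Subgroup.mul_mem _ (a.1 x) (b.1 x), fun x hx => by
    rw [ap_mul, b.2 x hx, a.2 x hx]⟩
  inv_mem' := fun {g} a => ⟨fun x => Subgroup.inv_mem _ (a.1 x), fun x hx => inv_fix (a.2 x hx)⟩

theorem tr_RR {i : ℕ} (hi : i ≠ 1) (h0 : i ≠ 0) (η : X) (m : ℤ) : tr i hi η m ∈ RR :=
  fun x _ => co_trF h0 η m x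

theorem trans_aux (x : X) (hx : co x 1 = 0) (k : ℕ) : ∀ n, (∀ j, n + k < j → co x j = 0) →
    ∃ r ∈ RR, Ag n (r.ap 0) x := by
  induction k with
  | zero => exact fun n h => ⟨1, RR.one_mem, fun j hj => (h j hj).symm⟩
  | succ k ih =>
    intro n h
    obtain ⟨r, hr, a⟩ := ih (n + 1) fun j hj => h j (by omega)
    by_cases e : n + 1 = 1
    · refine ⟨r, hr, fun j hj => ?_⟩
      rcases (show j = 1 ∨ n + 1 < j by omega) with rfl | hj
      · rw [co1, hx, co_zero]
      · exact a j hj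
    · refine ⟨tr (n + 1) e x (co x (n + 1) - co (r.ap 0) (n + 1)) * r,
        RR.mul_mem (tr_RR e (by omega) _ _) hr, fun j hj => ?_⟩
      rw [ap_mul, tr_ap]
      rcases (show j = n + 1 ∨ n + 1 < j by omega) with rfl | hj
      · rw [trF, if_pos a.symm]; simp
      · rw [co_trF hj.ne]; exact a j hj

theorem stab_one {g : LL} (h : g ∈ Stab 0) : g ∈ Stab (sg 1 1) := by
  intro j hj
  rcases (show j = 1 ∨ 1 < j by omega) with rfl | hj'
  · exact (co1 _ _).symm
  · have a : Ag 1 0 (sg 1 1) := by simpa using ag_add 1 0 1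
    rw [← g.ag a j hj', ← h j hj, a j hj']

theorem nag {x y : X} (h : co x 1 ≠ co y 1) : ¬ Ag 0 x y := fun e => h (e 1 one_pos)

theorem zlt : (0 : X) < sg 1 1 := lt_iff.2 ⟨1, by simpa using ag_add 1 0 1, by simp⟩

theorem e_neg : (0 : X) = sg 1 (-1) + sg 1 1 := X.ext' fun j => by
  simp only [co_add, co_sg, co_zero]; split_ifs <;> ring

theorem fix_line {ε : LL} (h : FixU (sg 1 (-1)) ε) {y : X} (hy : Ag 0 0 y) : ε.ap y = y := by
  have h1 : co y 1 = 0 := (hy 1 one_pos).symm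
  refine h y (lt_iff.2 ⟨1, fun j hj => ?_, by simp [h1]⟩) (nag (by simp [h1]))
  rw [co_sg_ne hj.ne, ← hy j (by omega), co_zero]

noncomputable def model : Data LL where
  R := RR
  A := AA
  St := Stab 0
  b := t0 (sg 1 (-1))
  c := t0 0
  w := t0 (sg 1 1)
  φ := mv 0
  ψ := mv (sg 1 1)
  normal := ⟨fun g a h => ⟨fun x => by
    show Ag 0 x _
    simpa using h.ag (a.1 (h⁻¹.ap x)), fun x hx => by
    rw [ap_mul, ap_mul, a.2 _ (by rwa [co1]), ap_inv]⟩⟩
  AR g a x hx := by rw [a.2 x (by rw [hx]; exact one_ne_zero)]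
  comm α a β b := ext' fun x => by
    rw [ap_mul, ap_mul, line (a.1 x) (b.1 x), line (b.1 x) (a.1 x), line (a.1 x) (Ag.refl _ _),
      line (b.1 x) (Ag.refl _ _), add_right_comm]
  bR x hx := by rw [t0_not (nag (by simp [hx]))]
  b1 := (t0_pos _).le
  cA := ⟨t0_ag 0, fun x hx => t0_not (nag (by simpa using hx.symm))⟩
  c1 := t0_pos _
  w1 := t0_pos _
  φ_mul α a β b := mv_mul (a.1 _) (b.1 _)
  φE ε e ε' e' α a α' a' h := by
    have h1 := congrArg (fun g => LL.ap g 0) h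
    simp only [ap_mul] at h1
    rw [fix_line (mem_hull.1 e) (a'.1 0), fix_line (mem_hull.1 e') (Ag.refl _ _)] at h1
    rw [mv, mv, h1]
  DE δ h := by
    have h' := mem_hull.1 h
    refine ⟨mv 0 δ, mem_hull.2 ((h'.mul ((t0_fix 0).zpow _)).down e_neg ?_)⟩
    rw [mv_mul h'.stab ((t0_fix 0).zpow _).stab, mv_zpow (t0_fix 0).stab, t0_mv]; ring
  succ u hu := by
    rcases le_or_gt (t0 (sg 1 1)) u with h | h
    · exact Or.inr ⟨1, Subgroup.one_mem _, by rwa [mul_one]⟩
    have hw := t0_fix (sg 1 1)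
    have h1 : FixU (sg 1 1) u := FixU.convex (g := 1) (fun _ _ _ => rfl) hw hu.le h.le
    have h2 := h1.nonneg hu.le
    have h3 := (h1.inv.mul hw).nonneg (by rw [le_inv_mul_iff_mul_le, mul_one]; exact h.le)
    rw [mv_mul h1.inv.stab hw.stab, mv_inv h1.stab, t0_mv] at h3
    rcases (show mv (sg 1 1) u = 0 ∨ mv (sg 1 1) u = 1 by omega) with e | e
    · exact Or.inl (mem_hull.2 (h1.down (zero_add _).symm e))
    · refine Or.inr ⟨(t0 (sg 1 1))⁻¹ * u, mem_hull.2 ((hw.inv.mul h1).down (zero_add _).symm ?_),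
        by rw [mul_inv_cancel_left]⟩
      rw [mv_mul hw.inv.stab h1.stab, mv_inv hw.stab, t0_mv, e]; ring
  wD δ h := by
    have e : (t0 (sg 1 1)).ap 0 = 0 := t0_not (nag (by simp))
    refine ⟨mem_hull.2 ((mem_hull.1 h).conj _ (by rw [e]; exact Ag.refl _ _)), mem_hull.2 ?_⟩
    simpa using (mem_hull.1 h).conj (t0 (sg 1 1))⁻¹ (η := 0) (by rw [inv_fix e]; exact Ag.refl _ _)
  top α a h := by
    obtain ⟨i, x, h1, -, h3⟩ := topnode α h.ne'
    have hi : i = 0 := by
      by_contra e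
      exact h1 (a.1 x i (by omega)).symm
    subst hi
    have hx : co x 1 = 0 := by
      by_contra e
      exact h1 (by rw [a.2 x e])
    obtain ⟨n, hn⟩ := bound x
    obtain ⟨r, hr, b⟩ := trans_aux x hx n 0 fun j hj => hn j (by omega)
    refine ⟨r, hr, mem_hull.2 (FixU.conj r b h3), ?_⟩
    rw [mv_conj r b (a.1 x)]
    exact lt_of_le_of_ne (FixU.nonneg h3 h.le) fun e => h1 (by rw [mv] at e; linarith)
  pos δ h h1 := (mem_hull.1 h).nonneg h1
  DSt δ h := (mem_hull.1 h).stab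
  wSt := t0_ag _ _
  φc ω := by
    split_ifs with h
    · rw [mv_conj ω (Ag.symm h) (t0_fix 0).stab, t0_mv]
    · rw [mv, ap_mul, ap_mul, t0_not h, inv_ap, sub_self]
  ψ_mul x a y b := mv_mul (stab_one a) (stab_one b)
  ψD δ h := by rw [mv, mem_hull.1 h _ zlt (nag (by simp)), sub_self]
  ψR r hr hs := by
    have h1 : mv (sg 1 1) r = 0 := by rw [mv, hr _ (by simp), sub_self]
    have h2 : ∀ y, Ag 0 (sg 1 1) y → r.ap y = y := fun y hy => by
      rw [line (stab_one hs) hy, h1]; exact X.ext' fun j => by simp [co_sg]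
    refine ⟨h1, ext' fun y => ?_⟩
    rw [ap_mul, ap_mul]
    by_cases e : Ag 0 (sg 1 1) y
    · rw [h2 y e, h2 _ (e.trans (t0_ag _ _))]
    · rw [t0_not e, t0_not fun e' => e ?_]
      have := r⁻¹.ag e'
      rwa [inv_fix (h2 _ (Ag.refl _ _)), inv_ap] at this
  ψw := t0_mv _
  hP γ ν h := by
    obtain ⟨x, hx⟩ := one_lt.1 h
    obtain ⟨x₀, h0⟩ := exists_fix ν
    obtain ⟨n, hn⟩ := bound x
    obtain ⟨m, hm⟩ := bound x₀
    have e : n + m + 2 ≠ 1 := by omega
    refine ⟨(tr (n + m + 2) e x 1)⁻¹, RR.inv_mem (tr_RR e (by omega) _ _),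
      (lt_of_fix (fun y hy => h0 y (le_trans ?_ hy)) (hx.conj _)).le⟩
    rw [inv_inv, tr_ap, trF, if_pos (Ag.refl _ _)]
    refine (lt_iff.2 ⟨n + m + 2, fun j hj => ?_, ?_⟩).le
    · rw [co_add, co_sg_ne hj.ne, hm j (by omega), hn j (by omega), add_zero]
    · rw [co_add, co_sg_self, hm _ (by omega), hn _ (by omega)]; norm_num
  hb x := by
    obtain ⟨x₀, h0⟩ := exists_fix x
    refine ⟨t0 x₀, fun k => (lt_of_fix (fun y hy => ?_) (tr_pos _ (Ag.refl 0 x₀))).le⟩
    induction k with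
    | zero => rfl
    | succ k ih => rw [pow_succ, ap_mul, h0 y hy, ih]

end Pool.Agent.H.MP_918b6a_al
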